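import Pool.Agent.Helper69.QG.St2

/-! # Project QD, part C, geometric half: module PSX (existence of the folding map) -/

open Complex Set Metric
open scoped ComplexConjugate

namespace Pool.Agent.Helper28.QG

open Pool.Agent.Helper69.QG

private theorem gen_sq (s : Fin 4) : gen s * gen s = 1 := cs.simple_mul_simple_self s

private theorem fr_cont (s : Fin 4) : Continuous (fr s) := by
  fin_cases s
  · show Continuous (fun z : ℂ => -conj z)
    exact Complex.continuous_conj.neg
  · show Continuous (fun z : ℂ => 2 - conj z)
    exact continuous_const.sub Complex.continuous_conj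
  · show Continuous (fun z : ℂ => conj z)
    exact Complex.continuous_conj
  · show Continuous (fun z : ℂ => conj z + 2 * I)
    exact Complex.continuous_conj.add continuous_const

private theorem flat_cont (w : W) : Continuous (flat w) := by
  refine cs.simple_induction (p := fun w => Continuous (flat w)) w ?_ ?_ ?_
  · intro s
    have h : ((flat (cs.simple s) : Equiv.Perm ℂ) : ℂ → ℂ) = fr s := by
      funext z
      exact flat_gen s z
    rw [h]
    exact fr_cont s
  · rw [map_one]
    exact continuous_id
  · intro w w' h h'
    rw [map_mul]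
    exact h.comp h'

theorem cPSX (pch : St_PCH) (fld : St_FLD) (flc : St_FLC) (cvr : St_CVR) (evl : St_EVL) :
    St_PSX := by
  obtain ⟨h1, h2, h3, h4, h5⟩ := pch
  set r : Ev →* Equiv.Perm ℂ := flat.comp Ev.subtype with hr
  have rap : ∀ (w : Ev) (z : ℂ), r w z = flat (w : W) z := fun w z => rfl
  have key : ∀ s : Fin 4, ∀ z ∈ Pc, act (gen s) z = z → fr s (psi z) = psi z := by
    intro s z hz hs
    obtain ⟨k0, k1, k2, k3⟩ := h5 z hz
    fin_cases s
    · have hk := k0.1 hs
      show -conj (psi z) = psi z
      apply Complex.ext
      · simp [hk]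
      · simp
    · have hk := k1.1 hs
      show 2 - conj (psi z) = psi z
      apply Complex.ext
      · simp [hk]; norm_num
      · simp
    · have hk := k2.1 hs
      show conj (psi z) = psi z
      apply Complex.ext
      · simp
      · simp [hk]
    · have hk := k3.1 hs
      show conj (psi z) + 2 * I = psi z
      apply Complex.ext
      · simp
      · simp [hk]; norm_num
  obtain ⟨F, F0, F1, FE⟩ := fld ℂ r (fun z => psi z) (fun z => fr 0 (psi z)) (by
    intro s h z hz hs
    show flat (gen s * gen 0) (fr 0 (psi z)) = psi z
    rw [map_mul, Equiv.Perm.mul_apply, flat_gen, flat_gen, fr_fr]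
    exact key s z hz hs)
  have gen0 : ∀ (w : W) (z : DD), act w z = act (w * gen 0) (act (gen 0) z) := by
    intro w z
    rw [← Equiv.Perm.mul_apply, ← map_mul, mul_assoc, gen_sq, mul_one]
  have main : ∀ (w : W), ∀ p ∈ Pc, F (act w p) = flat w (psi p) := by
    intro w p hp
    rcases evl.2.2.2.1 w with hw | hw
    · have := FE ⟨w, hw⟩ p
      rw [rap, F0 p hp] at this
      exact this
    · have := FE ⟨w * gen 0, hw⟩ (act (gen 0) p)
      rw [rap, F1 p hp] at this
      rw [gen0 w p]
      refine this.trans ?_
      show flat (w * gen 0) (fr 0 (psi p)) = flat w (psi p)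
      rw [map_mul, Equiv.Perm.mul_apply, flat_gen, fr_fr]
  have cpsi : ∀ z : DD, ContinuousAt (fun y : DD => psi (y : ℂ)) z := by
    intro z
    have h := h4.comp_continuous (f := fun y : DD => (y : ℂ)) continuous_subtype_val
      (fun y => y.2)
    exact h.continuousAt
  have cpsi' : Continuous (fun y : DD => psi (y : ℂ)) := continuous_iff_continuousAt.2 cpsi
  have cact : Continuous (act (gen 0) : DD → DD) := by
    rw [act_gen]
    apply Continuous.subtype_mk
    show Continuous (fun z : DD => -conj (z : ℂ))
    exact (Complex.continuous_conj.comp continuous_subtype_val).neg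
  have cF : Continuous F := by
    refine flc ℂ r F (fun w => flat_cont w) ?_ ?_ FE
    · exact cpsi'.continuousOn.congr (fun z hz => F0 z hz)
    · have h : Continuous (fun y : DD => fr 0 (psi (act (gen 0) y : DD))) :=
        (fr_cont 0).comp (cpsi'.comp cact)
      refine h.continuousOn.congr ?_
      rintro y ⟨z, hz, rfl⟩
      have e : act (gen 0) (act (gen 0) z) = z := by
        rw [← Equiv.Perm.mul_apply, ← map_mul, gen_sq, map_one, Equiv.Perm.one_apply]
      show F (act (gen 0) z) = fr 0 (psi (act (gen 0) (act (gen 0) z) : DD))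
      rw [e]
      exact F1 z hz
  refine ⟨F, cF, fun z hz => F0 z hz, ?_⟩
  intro w z
  obtain ⟨v, hv⟩ := cvr z
  have e1 : z = act v⁻¹ (act v z) := by
    rw [← Equiv.Perm.mul_apply, ← map_mul, inv_mul_cancel, map_one, Equiv.Perm.one_apply]
  have e2 : act w z = act (w * v⁻¹) (act v z) := by
    rw [map_mul, Equiv.Perm.mul_apply, ← e1]
  have e3 : F z = flat v⁻¹ (psi (act v z : DD)) := by
    conv_lhs => rw [e1]
    exact main _ _ hv
  rw [e2, main _ _ hv, e3, map_mul, Equiv.Perm.mul_apply]

end Pool.Agent.Helper28.QG
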